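import Mathlib

/-!
# MP_7ad8d2_an, Q1: affirmative answer
-/

open Finset Matrix

namespace Pool.Agent.Results.MP_7ad8d2_an.MinimalInverse

/-- maximum absolute row sum -/
noncomputable def normInf {n : ℕ} (A : Matrix (Fin n) (Fin n) ℝ) : ℝ := ⨆ i, ∑ j, |A i j|

/-- `S(α,m) = α I + m 1 1ᵀ` -/
def S (n : ℕ) (α m : ℝ) : Matrix (Fin n) (Fin n) ℝ := α • 1 + m • Matrix.of fun _ _ => 1

/-- diagonal dominance of row `i` -/
def dom {n : ℕ} (J : Matrix (Fin n) (Fin n) ℝ) (i : Fin n) : ℝ := J i i - ∑ j ∈ univ.erase i, J i j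

/-- the set `C_n(m,δ)` -/
structure InC {n : ℕ} (m δ : ℝ) (J : Matrix (Fin n) (Fin n) ℝ) : Prop where
  symm : J.IsSymm
  pos : ∀ i j, 0 < J i j
  le : ∀ i j, i ≠ j → J i j ≤ m
  dom_nonneg : ∀ i, 0 ≤ dom J i
  dom_le : ∀ i, dom J i ≤ δ

section basics
variable {n : ℕ} {m δ : ℝ} {J : Matrix (Fin n) (Fin n) ℝ}

lemma dom_eq (J : Matrix (Fin n) (Fin n) ℝ) (i : Fin n) : dom J i = 2 * J i i - ∑ j, J i j := by
  rw [dom, ← add_sum_erase univ (J i) (mem_univ i)]
  ring

lemma InC.sym (h : InC m δ J) (i j : Fin n) : J i j = J j i := by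
  have := congrFun (congrFun h.symm j) i
  simpa [Matrix.transpose_apply] using this

lemma off_le (h : InC m δ J) {i j : Fin n} (hij : i ≠ j) : J i j ≤ ∑ k ∈ univ.erase i, J i k :=
  single_le_sum (f := fun k => J i k) (fun k _ => (h.pos i k).le) (mem_erase.2 ⟨hij.symm, mem_univ _⟩)

lemma off_two_le (h : InC m δ J) {i j k : Fin n} (hij : i ≠ j) (hik : i ≠ k) (hjk : j ≠ k) :
    J i j + J i k ≤ ∑ l ∈ univ.erase i, J i l := by
  have : ∑ l ∈ {j, k}, J i l ≤ ∑ l ∈ univ.erase i, J i l := by
    refine sum_le_sum_of_subset_of_nonneg ?_ fun l _ _ => (h.pos i l).le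
    intro l hl
    simp only [mem_insert, mem_singleton] at hl
    rcases hl with rfl | rfl
    · exact mem_erase.2 ⟨hij.symm, mem_univ _⟩
    · exact mem_erase.2 ⟨hik.symm, mem_univ _⟩
  rwa [sum_pair hjk] at this

/-- the quadratic form is positive definite -/
lemma quad_pos (hn : 3 ≤ n) (h : InC m δ J) {v : Fin n → ℝ} (hv : v ≠ 0) :
    0 < v ⬝ᵥ (J *ᵥ v) := by
  classical
  obtain ⟨O, hO⟩ : ∃ O : Fin n → Fin n → ℝ, O = fun i j => if i = j then 0 else J i j := ⟨_, rfl⟩
  have hOs : ∀ i j, O i j = O j i := by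
    intro i j
    rw [hO]
    by_cases hij : i = j
    · simp [hij]
    · simp [hij, Ne.symm hij, h.sym i j]
  have hOn : ∀ i j, 0 ≤ O i j := by
    intro i j
    rw [hO]
    by_cases hij : i = j
    · simp [hij]
    · simpa [hij] using (h.pos i j).le
  have hJ : ∀ i j, J i j = O i j + if i = j then J i i else 0 := by
    intro i j
    rw [hO]
    by_cases hij : i = j
    · subst hij; simp
    · simp [hij]
  have hR : ∀ i, ∑ j, O i j = J i i - dom J i := by
    intro i
    rw [dom, hO, ← add_sum_erase univ _ (mem_univ i)]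
    simp only [if_true, zero_add, sub_sub_cancel]
    refine sum_congr rfl fun j hj => ?_
    rw [if_neg (ne_of_mem_erase hj).symm]
  have e1 : v ⬝ᵥ (J *ᵥ v) = ∑ i, ∑ j, O i j * (v i * v j) + ∑ i, J i i * v i ^ 2 := by
    simp only [dotProduct, Matrix.mulVec, mul_sum]
    rw [← sum_add_distrib]
    refine sum_congr rfl fun i _ => ?_
    have : ∑ j, v i * (J i j * v j) = ∑ j, (O i j * (v i * v j) + if i = j then J i i * v i ^ 2 else 0) := by
      refine sum_congr rfl fun j _ => ?_
      rw [hJ i j]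
      by_cases hij : i = j
      · subst hij; simp; ring
      · simp [hij]; ring
    rw [this, sum_add_distrib]
    simp
  have e2 : ∑ i, ∑ j, O i j * (v i + v j) ^ 2 =
      2 * ∑ i, (J i i - dom J i) * v i ^ 2 + 2 * ∑ i, ∑ j, O i j * (v i * v j) := by
    have a1 : ∑ i, ∑ j, O i j * (v i + v j) ^ 2 = ∑ i, ∑ j, O i j * v i ^ 2 +
        ∑ i, ∑ j, O i j * v j ^ 2 + 2 * ∑ i, ∑ j, O i j * (v i * v j) := by
      rw [mul_sum, ← sum_add_distrib, ← sum_add_distrib]
      refine sum_congr rfl fun i _ => ?_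
      rw [mul_sum, ← sum_add_distrib, ← sum_add_distrib]
      refine sum_congr rfl fun j _ => ?_
      ring
    have a2 : ∑ i, ∑ j, O i j * v j ^ 2 = ∑ i, ∑ j, O i j * v i ^ 2 := by
      rw [sum_comm]
      refine sum_congr rfl fun i _ => sum_congr rfl fun j _ => ?_
      rw [hOs]
    have a3 : ∑ i, ∑ j, O i j * v i ^ 2 = ∑ i, (J i i - dom J i) * v i ^ 2 := by
      refine sum_congr rfl fun i _ => ?_
      rw [← sum_mul, hR]
    rw [a1, a2, a3]; ring
  have e3 : 2 * (v ⬝ᵥ (J *ᵥ v)) = ∑ i, ∑ j, O i j * (v i + v j) ^ 2 + 2 * ∑ i, dom J i * v i ^ 2 := by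
    rw [e1, e2]
    have : ∑ i, (J i i - dom J i) * v i ^ 2 = ∑ i, J i i * v i ^ 2 - ∑ i, dom J i * v i ^ 2 := by
      rw [← sum_sub_distrib]
      exact sum_congr rfl fun i _ => by ring
    rw [this]; ring
  have p2 : 0 ≤ ∑ i, dom J i * v i ^ 2 :=
    sum_nonneg fun i _ => mul_nonneg (h.dom_nonneg i) (sq_nonneg _)
  have p1 : 0 < ∑ i, ∑ j, O i j * (v i + v j) ^ 2 := by
    have hnn : ∀ i, 0 ≤ ∑ j, O i j * (v i + v j) ^ 2 := fun i =>
      sum_nonneg fun j _ => mul_nonneg (hOn i j) (sq_nonneg _)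
    by_contra hcon
    have hz : ∑ i, ∑ j, O i j * (v i + v j) ^ 2 = 0 :=
      le_antisymm (not_lt.1 hcon) (sum_nonneg fun i _ => hnn i)
    have h0 : ∀ i j, i ≠ j → v i + v j = 0 := by
      intro i j hij
      have := (sum_eq_zero_iff_of_nonneg fun i _ => hnn i).1 hz i (mem_univ i)
      have := (sum_eq_zero_iff_of_nonneg fun j _ => mul_nonneg (hOn i j) (sq_nonneg _)).1 this j
        (mem_univ j)
      have hO' : O i j ≠ 0 := by
        rw [hO]; simp [hij, (h.pos i j).ne']
      have := (mul_eq_zero.1 this).resolve_left hO'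
      exact pow_eq_zero_iff (two_ne_zero) |>.1 this
    apply hv
    funext i
    obtain ⟨j, hj, k, hk, hjk⟩ : ∃ j, i ≠ j ∧ ∃ k, i ≠ k ∧ j ≠ k := by
      have hcard : 2 ≤ (univ.erase i).card := by
        rw [card_erase_of_mem (mem_univ i), card_univ, Fintype.card_fin]; omega
      obtain ⟨j, hj, k, hk, hjk⟩ := one_lt_card.1 (by omega : 1 < (univ.erase i).card)
      exact ⟨j, (ne_of_mem_erase hj).symm, k, (ne_of_mem_erase hk).symm, hjk⟩
    have b1 := h0 i j hj
    have b2 := h0 i k hk
    have b3 := h0 j k hjk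
    simp only [Pi.zero_apply]
    linarith
  linarith

lemma det_ne (hn : 3 ≤ n) (h : InC m δ J) : J.det ≠ 0 := by
  intro hdet
  obtain ⟨v, hv, hJv⟩ := Matrix.exists_mulVec_eq_zero_iff.2 hdet
  have := quad_pos hn h hv
  rw [hJv, dotProduct_zero] at this
  exact lt_irrefl _ this

lemma inv_diag_pos (hn : 3 ≤ n) (h : InC m δ J) (i : Fin n) : 0 < J⁻¹ i i := by
  classical
  have hu : IsUnit J.det := isUnit_iff_ne_zero.2 (det_ne hn h)
  obtain ⟨v, hv⟩ : ∃ v, v = J⁻¹ *ᵥ Pi.single i 1 := ⟨_, rfl⟩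
  have h1 : J *ᵥ v = Pi.single i 1 := by
    rw [hv, Matrix.mulVec_mulVec, Matrix.mul_nonsing_inv _ hu, Matrix.one_mulVec]
  have hv0 : v ≠ 0 := by
    intro h0
    rw [h0, Matrix.mulVec_zero] at h1
    have := congrFun h1 i
    simp at this
  have h2 := quad_pos hn h hv0
  rw [h1, dotProduct_single, mul_one] at h2
  have h3 : v i = J⁻¹ i i := by rw [hv]; simp
  rwa [h3] at h2

end basics

section main
variable {n : ℕ} {m δ : ℝ} {J : Matrix (Fin n) (Fin n) ℝ}

lemma row_le (K : Matrix (Fin n) (Fin n) ℝ) (i : Fin n) : ∑ j, |K i j| ≤ normInf K :=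
  le_ciSup (f := fun i => ∑ j, |K i j|) (Set.finite_range _).bddAbove i

/-- total deficit of row `k` -/
def C (m : ℝ) (J : Matrix (Fin n) (Fin n) ℝ) (k : Fin n) : ℝ := ∑ j ∈ univ.erase k, (m - J k j)

lemma C_eq (m : ℝ) (J : Matrix (Fin n) (Fin n) ℝ) (k : Fin n) :
    C m J k = (n - 1) * m - (J k k - dom J k) := by
  rw [C, sum_sub_distrib, sum_const, card_erase_of_mem (mem_univ k), card_univ, Fintype.card_fin,
    dom, nsmul_eq_mul]
  have : 0 < n := k.pos
  rw [Nat.cast_sub (by omega)]
  push_cast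
  ring

lemma def_nonneg (h : InC m δ J) {k j : Fin n} (hkj : k ≠ j) : 0 ≤ m - J k j := by
  linarith [h.le k j hkj]

lemma le_C (h : InC m δ J) {k i : Fin n} (hki : k ≠ i) : m - J k i ≤ C m J k :=
  single_le_sum (f := fun j => m - J k j)
    (fun j hj => def_nonneg h (ne_of_mem_erase hj).symm) (mem_erase.2 ⟨hki.symm, mem_univ _⟩)

lemma C_nonneg (h : InC m δ J) (k : Fin n) : 0 ≤ C m J k :=
  sum_nonneg fun _ hj => def_nonneg h (ne_of_mem_erase hj).symm

lemma two_le_C (h : InC m δ J) {k i j : Fin n} (hki : k ≠ i) (hkj : k ≠ j) (hij : i ≠ j) :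
    (m - J k i) + (m - J k j) ≤ C m J k := by
  have : ∑ l ∈ {i, j}, (m - J k l) ≤ ∑ l ∈ univ.erase k, (m - J k l) := by
    refine sum_le_sum_of_subset_of_nonneg ?_ fun l hl _ => def_nonneg h (ne_of_mem_erase hl).symm
    intro l hl
    simp only [mem_insert, mem_singleton] at hl
    rcases hl with rfl | rfl
    · exact mem_erase.2 ⟨hki.symm, mem_univ _⟩
    · exact mem_erase.2 ⟨hkj.symm, mem_univ _⟩
  rwa [sum_pair hij] at this

lemma mulVec_test (a b : ℝ) (i k : Fin n) :
    (J *ᵥ fun j => if j = i then a else -b) k = (a + b) * J k i - b * ∑ j, J k j := by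
  simp only [Matrix.mulVec, dotProduct]
  have : ∀ j, J k j * (if j = i then a else -b) = (if j = i then (a + b) * J k i else 0) - b * J k j := by
    intro j
    by_cases hj : j = i
    · subst hj; simp; ring
    · simp [hj]; ring
  rw [sum_congr rfl fun j _ => this j, sum_sub_distrib, ← mul_sum]
  simp

/-- a vector `x` with `x i = A`, `|J x| ≤ L` bounds row `i` of the inverse -/
lemma row_bound (hu : IsUnit J.det) {x : Fin n → ℝ} {L : ℝ} (hx : ∀ k, |(J *ᵥ x) k| ≤ L)
    (i : Fin n) :
    x i = ∑ k, J⁻¹ i k * (J *ᵥ x) k ∧ ∀ k, J⁻¹ i k * (J *ᵥ x) k ≤ |J⁻¹ i k| * L := by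
  constructor
  · have h1 : J⁻¹ *ᵥ (J *ᵥ x) = x := by
      rw [Matrix.mulVec_mulVec, Matrix.nonsing_inv_mul _ hu, Matrix.one_mulVec]
    have := congrFun h1 i
    rw [← this]; rfl
  · intro k
    calc J⁻¹ i k * (J *ᵥ x) k ≤ |J⁻¹ i k * (J *ᵥ x) k| := le_abs_self _
      _ = |J⁻¹ i k| * |(J *ᵥ x) k| := abs_mul _ _
      _ ≤ _ := mul_le_mul_of_nonneg_left (hx k) (abs_nonneg _)

/-- the heart of the proof -/
theorem core (hn : 3 ≤ n) (hm : 0 < m) (hδ : 0 ≤ δ) (h : InC m δ J) {α A B L : ℝ}
    (hα : α = m * (n - 2) + δ) (hA : A = α + 2 * m * (n - 1)) (hB : B = α + 2 * m)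
    (hL : L = α * (α + m * n)) :
    A ≤ L * normInf J⁻¹ ∧ (L * normInf J⁻¹ ≤ A → J = S n α m) := by
  classical
  have hN : (3 : ℝ) ≤ n := by exact_mod_cast hn
  have hu : IsUnit J.det := isUnit_iff_ne_zero.2 (det_ne hn h)
  have hα0 : 0 < α := by rw [hα]; nlinarith
  have hAB : 0 < A - B := by rw [hA, hB]; nlinarith
  have hB0 : 0 < B := by rw [hB]; linarith
  have hL0 : 0 < L := by rw [hL]; positivity
  obtain ⟨y, hy⟩ : ∃ y : Fin n → Fin n → ℝ, y = fun i k => (A + B) * J k i - B * ∑ j, J k j :=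
    ⟨_, rfl⟩
  obtain ⟨x, hx⟩ : ∃ x : Fin n → Fin n → ℝ, x = fun i j => if j = i then A else -B := ⟨_, rfl⟩
  have hxy : ∀ i k, (J *ᵥ x i) k = y i k := by
    intro i k; rw [hx, hy]; exact mulVec_test A B i k
  have hT : ∀ k, ∑ j, J k j = 2 * J k k - dom J k := fun k => by rw [dom_eq]; ring
  have hJkk : ∀ k, J k k = (n - 1) * m - C m J k + dom J k := fun k => by rw [C_eq]; ring
  -- the diagonal entry
  have y1 : ∀ i, y i i = L - (A - B) * (C m J i + (δ - dom J i)) - B * (δ - dom J i) := by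
    intro i
    rw [hy]
    simp only
    rw [hT, hJkk i, hL, hA, hB, hα]
    ring
  have y2 : ∀ i k, y i k = -L - ((A - B) * (m - J k i) - 2 * B * (C m J k - (m - J k i)) -
      B * (δ - dom J k)) := by
    intro i k
    rw [hy]
    simp only
    rw [hT, hJkk k, hL, hA, hB, hα]
    ring
  have y3 : ∀ i, 0 ≤ y i i := by
    intro i
    rw [hy]
    simp only
    rw [hT]
    have h1 := mul_nonneg hAB.le (h.pos i i).le
    have h2 := mul_nonneg hB0.le (h.dom_nonneg i)
    linarith
  have hoff : ∀ k, J k k - dom J k = ∑ j ∈ univ.erase k, J k j := fun k => by rw [dom]; ring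
  have hAL : (A - B) * m < L := by
    rw [hL, hA, hB, hα]
    have : 0 ≤ n - 3 + (0 : ℝ) := by linarith
    nlinarith [mul_nonneg (mul_nonneg hm.le hm.le) this, mul_nonneg hm.le hδ, mul_pos hm hm,
      mul_nonneg (mul_nonneg hm.le hm.le) (mul_nonneg this this),
      mul_nonneg (mul_nonneg hm.le hδ) this, mul_nonneg hδ hδ]
  have y4 : ∀ i k, k ≠ i → y i k ≤ (A - B) * J k i := by
    intro i k hki
    rw [hy]
    simp only
    rw [hT]
    have h1 := off_le h hki
    rw [← hoff] at h1
    have h2 := h.dom_nonneg k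
    nlinarith [mul_nonneg hB0.le (by linarith : 0 ≤ 2 * J k k - dom J k - 2 * J k i)]
  have y5 : ∀ i k, k ≠ i → y i k < L := by
    intro i k hki
    refine lt_of_le_of_lt (y4 i k hki) (lt_of_le_of_lt ?_ hAL)
    exact mul_le_mul_of_nonneg_left (h.le k i hki) hAB.le
  by_cases hfeas : ∃ i, ∀ k, k ≠ i → -L ≤ y i k
  · obtain ⟨i, hi⟩ := hfeas
    have hbd : ∀ k, |(J *ᵥ x i) k| ≤ L := by
      intro k
      rw [hxy, abs_le]
      by_cases hk : k = i
      · subst hk
        refine ⟨by linarith [y3 k], ?_⟩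
        rw [y1 k]
        have h1 := mul_nonneg hAB.le (add_nonneg (C_nonneg h k) (sub_nonneg.2 (h.dom_le k)))
        have h2 := mul_nonneg hB0.le (sub_nonneg.2 (h.dom_le k))
        linarith
      · exact ⟨hi k hk, (y5 i k hk).le⟩
    obtain ⟨r1, r2⟩ := row_bound hu hbd i
    have hxi : x i i = A := by rw [hx]; simp
    rw [hxi] at r1
    have r3 : A ≤ L * ∑ k, |J⁻¹ i k| := by
      rw [r1, mul_sum]
      refine sum_le_sum fun k _ => ?_
      rw [mul_comm L]
      exact r2 k
    have r4 : L * ∑ k, |J⁻¹ i k| ≤ L * normInf J⁻¹ := mul_le_mul_of_nonneg_left (row_le _ i) hL0.le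
    refine ⟨r3.trans r4, fun heq => ?_⟩
    -- equality analysis
    have hall : ∀ k, J⁻¹ i k * (J *ᵥ x i) k = |J⁻¹ i k| * L := by
      have hsum : ∑ k, (|J⁻¹ i k| * L - J⁻¹ i k * (J *ᵥ x i) k) = 0 := by
        refine le_antisymm ?_ (sum_nonneg fun k _ => sub_nonneg.2 (r2 k))
        rw [sum_sub_distrib, ← r1, ← sum_mul]
        linarith [mul_comm L (∑ k, |J⁻¹ i k|)]
      intro k
      have := (sum_eq_zero_iff_of_nonneg fun k _ => sub_nonneg.2 (r2 k)).1 hsum k (mem_univ k)
      linarith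
    have hKii := inv_diag_pos hn h i
    have hyi : y i i = L := by
      have := hall i
      rw [hxy, abs_of_pos hKii] at this
      exact mul_left_cancel₀ hKii.ne' this
    have hCi : C m J i = 0 ∧ δ - dom J i = 0 := by
      rw [y1] at hyi
      have h1 := C_nonneg h i
      have h2 := sub_nonneg.2 (h.dom_le i)
      have h3 := mul_nonneg hAB.le h1
      have h4 := mul_nonneg hAB.le h2
      have h5 := mul_nonneg hB0.le h2
      have e1 : (A - B) * C m J i = 0 := by nlinarith
      have e2 : (A - B) * (δ - dom J i) = 0 := by nlinarith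
      exact ⟨(mul_eq_zero.1 e1).resolve_left hAB.ne', (mul_eq_zero.1 e2).resolve_left hAB.ne'⟩
    -- full rows
    have hfull : ∀ k, J⁻¹ i k ≠ 0 → C m J k = 0 ∧ δ - dom J k = 0 := by
      intro k hk
      by_cases hki : k = i
      · subst hki; exact hCi
      · have hcki : m - J k i = 0 := by
          have h1 := le_C h (Ne.symm hki)
          rw [hCi.1] at h1
          have h2 := def_nonneg h (Ne.symm hki)
          rw [h.sym k i]
          linarith
        have h1 := hall k
        rw [hxy] at h1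
        have h2 : y i k = -L := by
          rcases lt_or_gt_of_ne hk with hneg | hpos
          · rw [abs_of_neg hneg] at h1
            have : J⁻¹ i k * y i k = J⁻¹ i k * (-L) := by linarith
            exact mul_left_cancel₀ hk this
          · rw [abs_of_pos hpos] at h1
            have := mul_left_cancel₀ hk h1
            exact absurd this (y5 i k hki).ne
        rw [y2, hcki] at h2
        have h3 := C_nonneg h k
        have h4 := sub_nonneg.2 (h.dom_le k)
        have h5 := mul_nonneg hB0.le h3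
        have h6 := mul_nonneg hB0.le h4
        have e1 : B * C m J k = 0 := by nlinarith
        have e2 : B * (δ - dom J k) = 0 := by nlinarith
        exact ⟨(mul_eq_zero.1 e1).resolve_left hB0.ne', (mul_eq_zero.1 e2).resolve_left hB0.ne'⟩
    have hentries : ∀ k, C m J k = 0 ∧ δ - dom J k = 0 → ∀ j, J k j = m + if k = j then α else 0 := by
      rintro k ⟨h1, h2⟩ j
      by_cases hkj : k = j
      · subst hkj
        rw [hJkk k, h1, if_pos rfl, hα]
        linarith
      · rw [if_neg hkj]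
        have h3 := le_C h hkj
        have h4 := def_nonneg h hkj
        linarith
    obtain ⟨σ, hσ⟩ : ∃ σ, σ = ∑ k, J⁻¹ i k := ⟨_, rfl⟩
    have hcol : ∀ j, m * σ + α * J⁻¹ i j = if i = j then 1 else 0 := by
      intro j
      have h1 : (J⁻¹ * J) i j = if i = j then 1 else 0 := by
        rw [Matrix.nonsing_inv_mul _ hu, Matrix.one_apply]
      rw [← h1, Matrix.mul_apply, hσ, mul_sum]
      have h2 : ∀ k, J⁻¹ i k * J k j = m * J⁻¹ i k + if k = j then α * J⁻¹ i k else 0 := by
        intro k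
        by_cases hk : J⁻¹ i k = 0
        · simp [hk]
        · rw [hentries k (hfull k hk) j]
          by_cases hkj : k = j
          · simp only [hkj, if_true]; ring
          · simp only [hkj, if_false]; ring
      rw [sum_congr rfl fun k _ => h2 k, sum_add_distrib]
      simp
    have hσ0 : σ ≠ 0 := by
      intro h0
      have h1 : ∑ j, (m * σ + α * J⁻¹ i j) = 1 := by
        rw [sum_congr rfl fun j _ => hcol j]; simp
      rw [h0] at h1
      simp only [mul_zero, zero_add] at h1
      rw [← mul_sum, ← hσ, h0] at h1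
      simp at h1
    have hallfull : ∀ k, C m J k = 0 ∧ δ - dom J k = 0 := by
      intro j
      by_contra hcon
      have hK : J⁻¹ i j = 0 := by
        by_contra hne
        exact hcon (hfull j hne)
      have hij : i ≠ j := by
        rintro rfl
        exact hKii.ne' hK
      have := hcol j
      rw [hK, if_neg hij, mul_zero, add_zero] at this
      exact hσ0 ((mul_eq_zero.1 this).resolve_left hm.ne')
    ext k j
    rw [hentries k (hallfull k) j, S]
    by_cases hkj : k = j
    · subst hkj; simp; ring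
    · simp [hkj]
  · -- every vector `x i` is infeasible
    push Not at hfeas
    choose κ hκ1 hκ2 using hfeas
    have hdef : ∀ i k, k ≠ i → y i k < -L →
        2 * B * (C m J k - (m - J k i)) + B * (δ - dom J k) < (A - B) * (m - J k i) := by
      intro i k _ hlt
      rw [y2] at hlt
      linarith
    have hAB2 : A - B ≤ 2 * B := by
      rw [hA, hB, hα]; nlinarith
    have hdomi : ∀ i k, k ≠ i → y i k < -L → C m J k - (m - J k i) < m - J k i := by
      intro i k hki hlt
      have h1 := hdef i k hki hlt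
      have h2 := mul_nonneg hB0.le (sub_nonneg.2 (h.dom_le k))
      have h3 := sub_nonneg.2 (le_C h hki)
      have h4 := def_nonneg h hki
      by_contra hcon
      push Not at hcon
      have h5 : (A - B) * (m - J k i) ≤ 2 * B * (m - J k i) := mul_le_mul_of_nonneg_right hAB2 h4
      have h6 : 2 * B * (m - J k i) ≤ 2 * B * (C m J k - (m - J k i)) :=
        mul_le_mul_of_nonneg_left hcon (by linarith)
      linarith
    have huniq : ∀ i j k, k ≠ i → k ≠ j → i ≠ j → y i k < -L → m - J k j < m - J k i := by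
      intro i j k hki hkj hij hlt
      have h1 := hdomi i k hki hlt
      have h2 := two_le_C h hki hkj hij
      linarith
    have hinj : Function.Injective κ := by
      intro i j hij
      by_contra hne
      have h1 := huniq i j (κ i) (hκ1 i) (by rw [hij]; exact hκ1 j) hne (hκ2 i)
      have h2 := huniq j i (κ j) (hκ1 j) (by rw [← hij]; exact hκ1 i) (Ne.symm hne) (hκ2 j)
      rw [hij] at h1
      linarith
    have hsurj : Function.Surjective κ := Finite.injective_iff_surjective.1 hinj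
    haveI : Nonempty (Fin n) := ⟨⟨0, by omega⟩⟩
    obtain ⟨i, hi⟩ : ∃ i, ∀ j, m - J (κ j) j ≤ m - J (κ i) i :=
      Finite.exists_max fun i => m - J (κ i) i
    obtain ⟨k, hk⟩ : ∃ k, k = κ i := ⟨_, rfl⟩
    have hki : k ≠ i := hk ▸ hκ1 i
    have hyk : y i k < -L := hk ▸ hκ2 i
    -- `κ k = i`
    have hκk : κ k = i := by
      obtain ⟨j, hj⟩ := hsurj i
      by_cases hjk : j = k
      · rw [← hjk]; exact hj
      · exfalso
        have h1 := huniq j k (κ j) (hκ1 j) (by rw [hj]; exact Ne.symm hki) hjk (hκ2 j)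
        rw [hj] at h1
        have h2 := hi j
        rw [hj, ← hk, h.sym k i] at h2
        linarith
    have hother : ∀ l, l ≠ i → l ≠ k → -L ≤ y i l := by
      intro l hli hlk
      by_contra hcon
      push Not at hcon
      obtain ⟨j, hj⟩ := hsurj l
      by_cases hji : j = i
      · rw [hji, ← hk] at hj
        exact hlk hj.symm
      · have hlj : l ≠ j := by rw [← hj]; exact hκ1 j
        have h1 := huniq i j l hli hlj (Ne.symm hji) hcon
        have h2 := huniq j i l hlj hli hji (by rw [← hj]; exact hκ2 j)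
        linarith
    obtain ⟨γ, hγ⟩ : ∃ γ, γ = (-y i k - L) / J k k := ⟨_, rfl⟩
    have hJk := h.pos k k
    have hγJ : γ * J k k = -y i k - L := by rw [hγ]; field_simp
    have hγ0 : 0 < γ := by rw [hγ]; exact div_pos (by linarith) hJk
    have hγle : γ * J k k ≤ (A - B) * (m - J k i) := by
      rw [hγJ, y2]
      have h1 := mul_nonneg hB0.le (sub_nonneg.2 (h.dom_le k))
      have h2 := mul_nonneg hB0.le (sub_nonneg.2 (le_C h hki))
      linarith
    have hJik : J i k < J k k := by
      have h1 : J k i < ∑ l ∈ univ.erase k, J k l := by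
        obtain ⟨l, hl1, hl2⟩ : ∃ l, l ≠ k ∧ l ≠ i := by
          have hcard : 1 ≤ ((univ.erase k).erase i).card := by
            rw [card_erase_of_mem (mem_erase.2 ⟨hki.symm, mem_univ _⟩),
              card_erase_of_mem (mem_univ k), card_univ, Fintype.card_fin]
            omega
          obtain ⟨l, hl⟩ := card_pos.1 (by omega : 0 < ((univ.erase k).erase i).card)
          exact ⟨l, ne_of_mem_erase (mem_of_mem_erase hl), ne_of_mem_erase hl⟩
        have h2 := off_two_le h hki (Ne.symm hl1) (Ne.symm hl2)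
        linarith [h.pos k l]
      rw [← hoff] at h1
      rw [h.sym i k]
      linarith [h.dom_nonneg k]
    have hcpos : 0 < m - J k i := by
      have h1 : 0 < γ * J k k := mul_pos hγ0 hJk
      by_contra hcon
      push Not at hcon
      have := mul_nonneg hAB.le (neg_nonneg.2 hcon)
      linarith
    have hγ2 : γ ≤ 2 * B := by
      by_contra hcon
      push Not at hcon
      have h1 : 2 * B * J k k < γ * J k k := mul_lt_mul_of_pos_right hcon hJk
      have h2 := hdef i k hki hyk
      have h3 := mul_nonneg hB0.le (sub_nonneg.2 (h.dom_le k))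
      have h4 := mul_nonneg hB0.le (h.dom_nonneg k)
      have h5 : m - J k i ≤ m := by linarith [h.pos k i]
      have h6 : A * (m - J k i) ≤ A * m := mul_le_mul_of_nonneg_left h5 (by linarith)
      have h7 : A * m ≤ B * (n - 1) * m := by
        refine mul_le_mul_of_nonneg_right ?_ hm.le
        rw [hA, hB]
        nlinarith
      have h8 : 2 * B * J k k < (A - B) * (m - J k i) := h1.trans_le hγle
      rw [hJkk k] at h8
      linarith
    -- the modified vector
    obtain ⟨x', hx'⟩ : ∃ x' : Fin n → ℝ, x' = x i + γ • Pi.single k 1 := ⟨_, rfl⟩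
    have hJx' : ∀ l, (J *ᵥ x') l = y i l + γ * J l k := by
      intro l
      rw [hx', Matrix.mulVec_add, Matrix.mulVec_smul, Pi.add_apply, hxy, Pi.smul_apply,
        Matrix.mulVec_single_one, smul_eq_mul]
      rfl
    have hx'i : x' i = A := by
      rw [hx', hx]
      simp [hki.symm]
    have hi_lt : (J *ᵥ x') i < L := by
      rw [hJx', y1]
      have h1 := mul_le_mul_of_nonneg_left (le_C h (Ne.symm hki)) hAB.le
      have h2 := mul_nonneg hAB.le (sub_nonneg.2 (h.dom_le i))
      have h3 := mul_nonneg hB0.le (sub_nonneg.2 (h.dom_le i))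
      have h4 : γ * J i k < γ * J k k := mul_lt_mul_of_pos_left hJik hγ0
      rw [h.sym k i] at hγle
      nlinarith
    have hi_nonneg : 0 ≤ (J *ᵥ x') i := by
      rw [hJx']
      exact add_nonneg (y3 i) (mul_nonneg hγ0.le (h.pos i k).le)
    have hbd : ∀ l, |(J *ᵥ x') l| ≤ L := by
      intro l
      rw [abs_le]
      by_cases hli : l = i
      · rw [hli]; exact ⟨by linarith, hi_lt.le⟩
      · by_cases hlk : l = k
        · rw [hlk, hJx', hγJ]
          exact ⟨by linarith, by linarith⟩
        · rw [hJx']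
          refine ⟨by linarith [hother l hli hlk, mul_nonneg hγ0.le (h.pos l k).le], ?_⟩
          have h1 := off_two_le h hli hlk (Ne.symm hki)
          rw [← hoff] at h1
          have h2 : y i l ≤ (A - B) * J l i - 2 * B * J l k := by
            rw [hy]
            simp only
            rw [hT]
            have := h.dom_nonneg l
            nlinarith [mul_nonneg hB0.le (by linarith :
              0 ≤ 2 * J l l - dom J l - 2 * J l i - 2 * J l k)]
          have h3 : γ * J l k ≤ 2 * B * J l k := mul_le_mul_of_nonneg_right hγ2 (h.pos l k).le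
          have h4 : (A - B) * J l i ≤ (A - B) * m := mul_le_mul_of_nonneg_left (h.le l i hli) hAB.le
          linarith
    obtain ⟨r1, r2⟩ := row_bound hu hbd i
    have hstrict : A < L * ∑ k, |J⁻¹ i k| := by
      rw [hx'i] at r1
      rw [r1, mul_sum]
      refine sum_lt_sum (fun k _ => by rw [mul_comm L]; exact r2 k) ⟨i, mem_univ i, ?_⟩
      have hKii := inv_diag_pos hn h i
      rw [abs_of_pos hKii, mul_comm L]
      exact mul_lt_mul_of_pos_left hi_lt hKii
    have r4 : L * ∑ k, |J⁻¹ i k| ≤ L * normInf J⁻¹ := mul_le_mul_of_nonneg_left (row_le _ i) hL0.le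
    refine ⟨(hstrict.trans_le r4).le, fun hcon => ?_⟩
    linarith

end main

/-- the norm of the inverse of `S(α,m)` -/
lemma normInf_S_inv {n : ℕ} (hn : 0 < n) {α m : ℝ} (hα : 0 < α) (hm : 0 < m) :
    normInf (S n α m)⁻¹ = (α + 2 * m * (n - 1)) / (α * (α + m * n)) := by
  classical
  have hN : (1 : ℝ) ≤ n := by exact_mod_cast hn
  have hd : 0 < α + m * n := by positivity
  obtain ⟨U, hU⟩ : ∃ U : Matrix (Fin n) (Fin n) ℝ, U = Matrix.of fun _ _ => 1 := ⟨_, rfl⟩
  have hU1 : ∀ i j, U i j = 1 := fun i j => by rw [hU]; rfl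
  have hSU : S n α m = α • 1 + m • U := by rw [hU]; rfl
  obtain ⟨c, hc⟩ : ∃ c, c = m / (α * (α + m * n)) := ⟨_, rfl⟩
  have hcm : c * (α * (α + m * n)) = m := by rw [hc]; field_simp
  have hc0 : 0 < c := by rw [hc]; positivity
  have hUU : U * U = (n : ℝ) • U := by
    ext i j
    rw [Matrix.mul_apply, Matrix.smul_apply]
    simp [hU1]
  have hinv : (S n α m)⁻¹ = (1 / α) • (1 : Matrix (Fin n) (Fin n) ℝ) - c • U := by
    refine Matrix.inv_eq_right_inv ?_
    rw [hSU, add_mul, mul_sub, mul_sub]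
    simp only [Matrix.smul_mul, Matrix.mul_smul, one_mul, mul_one, hUU]
    have e1 : α * (1 / α) = 1 := by field_simp
    have e2 : m * (1 / α) = α * c + m * (c * n) := by
      field_simp
      linear_combination -hcm
    have e3 : (α * (1 / α)) • (1 : Matrix (Fin n) (Fin n) ℝ) - (α * c) • U +
        ((m * (1 / α)) • U - (m * (c * n)) • U) = 1 := by
      rw [e1, e2]; module
    refine Eq.trans ?_ e3
    simp only [smul_smul]
    try module
  have hrow : ∀ i, ∑ j, |(S n α m)⁻¹ i j| = (α + 2 * m * (n - 1)) / (α * (α + m * n)) := by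
    intro i
    rw [hinv]
    have hq : c ≤ 1 / α := by
      rw [hc, div_le_div_iff₀ (by positivity) hα]
      nlinarith [mul_pos hα hm, mul_pos hα hα]
    have : ∀ j, |((1 / α) • (1 : Matrix (Fin n) (Fin n) ℝ) - c • U) i j| =
        (if i = j then 1 / α - 2 * c else 0) + c := by
      intro j
      rw [Matrix.sub_apply, Matrix.smul_apply, Matrix.smul_apply, Matrix.one_apply, hU1]
      by_cases hij : i = j
      · simp only [hij, smul_eq_mul, if_true, mul_one]
        rw [abs_of_nonneg (by linarith)]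
        ring
      · simp only [hij, smul_eq_mul, if_false, mul_one, mul_zero, zero_sub, abs_neg, zero_add]
        exact abs_of_pos hc0
    rw [sum_congr rfl fun j _ => this j, sum_add_distrib]
    simp only [sum_ite_eq, mem_univ, if_true, sum_const, card_univ, Fintype.card_fin, nsmul_eq_mul]
    rw [hc]
    field_simp
    ring
  have : Nonempty (Fin n) := ⟨⟨0, hn⟩⟩
  unfold normInf
  simp only [hrow, ciSup_const]

/-- **Affirmative answer to Q1.** -/
theorem result (n : ℕ) (hn : 3 ≤ n) (m δ : ℝ) (hm : 0 < m) (hδ : 0 ≤ δ)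
    (J : Matrix (Fin n) (Fin n) ℝ) (hJ : InC m δ J) :
    IsUnit J ∧
    normInf (S n (m * (n - 2) + δ) m)⁻¹ ≤ normInf J⁻¹ ∧
    (normInf J⁻¹ = normInf (S n (m * (n - 2) + δ) m)⁻¹ ↔ J = S n (m * (n - 2) + δ) m) ∧
    normInf (S n (m * (n - 2) + δ) m)⁻¹ =
      ((m * (n - 2) + δ) + 2 * m * (n - 1)) /
        ((m * (n - 2) + δ) * ((m * (n - 2) + δ) + m * n)) := by
  have hN : (3 : ℝ) ≤ n := by exact_mod_cast hn
  have hα : 0 < m * (n - 2) + δ := by nlinarith
  have hS := normInf_S_inv (n := n) (by omega) hα hm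
  obtain ⟨h1, h2⟩ := core hn hm hδ hJ rfl rfl rfl rfl
  have hL : 0 < (m * (n - 2) + δ) * ((m * (n - 2) + δ) + m * n) := by positivity
  refine ⟨(Matrix.isUnit_iff_isUnit_det J).2 (isUnit_iff_ne_zero.2 (det_ne hn hJ)), ?_, ⟨?_, ?_⟩, hS⟩
  · rw [hS, div_le_iff₀ hL, mul_comm (normInf J⁻¹)]
    exact h1
  · intro he
    refine h2 ?_
    rw [he, hS]
    rw [mul_div_cancel₀ _ hL.ne']
  · intro he
    rw [← he]

end Pool.Agent.Results.MP_7ad8d2_an.MinimalInverse
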